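import Pool.Agent.helper53.ORT.Spec

/-!
# Row KDT: a trace in the field with 27 elements
-/

set_option autoImplicit false

namespace Pool.Agent.ORT

open Module Pool.Agent.GS

theorem KDT : KDT_stmt := by
  intro F K _ _ _ _ _ _ hF hK σ hσ h0
  have h1 := FiniteField.algebraMap_trace_eq_sum_pow F K (σ ^ 2)
  rw [h0, map_zero, hK, hF] at h1
  simp only [Finset.sum_range_succ, Finset.sum_range_zero, zero_add, pow_zero, pow_one] at h1
  have h3F : (3 : F) = 0 := by
    have : Fintype F := Fintype.ofFinite F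
    have h := Nat.cast_card_eq_zero F
    rw [← Nat.card_eq_fintype_card, hF] at h
    exact_mod_cast h
  have h3 : (3 : K) = 0 := by
    have := congrArg (algebraMap F K) h3F
    rwa [map_ofNat, map_zero] at this
  have key : (1 : K) = 0 := by
    linear_combination
      ((-5377) * σ ^ 0 + (2996) * σ ^ 1 + (-1653) * σ ^ 2 + (925) * σ ^ 3 + (-507) * σ ^ 4 +
        (286) * σ ^ 5 + (-155) * σ ^ 6 + (89) * σ ^ 7 + (-47) * σ ^ 8 + (28) * σ ^ 9 +
        (-14) * σ ^ 10 + (9) * σ ^ 11 + (-4) * σ ^ 12 + (3) * σ ^ 13 + (-1) * σ ^ 14 +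
        (1) * σ ^ 15) * hσ +
      ((-1792) * σ ^ 0 + (-2586) * σ ^ 1 + (3239) * σ ^ 2) * h3 + h1
  exact one_ne_zero key

end Pool.Agent.ORT
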